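import Pool.Agent.Work.MP_db9399_trn_helper95.Lab

/-!
# MP_db9399, TSPLIT, block TRN (helper95), part 4: `Stmt_TSI → Stmt_TRB → Stmt_TSPLIT`
-/

set_option autoImplicit false

namespace Pool.Agent.Work.MP_db9399_trn.helper95

open Finset Classical
open Pool.Agent.Work.MP_db9399_all (nb)
open Pool.Agent.Work.MP_db9399_da
open Pool.Agent.Work.MP_db9399_xf
open Pool.Agent.Work.MP_db9399_iv
open Pool.Agent.Work.MP_db9399_ts (Dat Env Kd Lbo Fam ShC Stmt_TSI)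
open Pool.Agent.Work.MP_db9399_clj.helper75 (OO blk nB eE)
open Pool.Agent.Work.MP_db9399_lpl (LabT stmt_LPL)

universe u

/-! ### the classes -/

theorem ec_inj : Function.Injective (ec : Cx.{u} → Fin 6) := by
  intro κ κ' h
  rcases κ with j | i | _ <;> rcases κ' with j' | i' | _
  · have : ∀ x y : Fin 3, MP_db9399_ts.cC x = MP_db9399_ts.cC y → x = y := by decide
    rw [this j j' h]
  · exfalso
    have : ∀ (x : Fin 3) (y : Bool), MP_db9399_ts.cC x ≠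
      MP_db9399_ts.cQ (if y then 1 else 0) := by decide
    exact this j i' h
  · exfalso
    have : ∀ (x : Fin 3), MP_db9399_ts.cC x ≠ 5 := by decide
    exact this j h
  · exfalso
    have : ∀ (x : Fin 3) (y : Bool), MP_db9399_ts.cQ (if y then 1 else 0) ≠
      MP_db9399_ts.cC x := by decide
    exact this j' i h
  · have : ∀ x y : Bool, MP_db9399_ts.cQ (if x then 1 else 0) =
      MP_db9399_ts.cQ (if y then 1 else 0) → x = y := by decide
    rw [this i i' h]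
  · exfalso
    have : ∀ (x : Bool), MP_db9399_ts.cQ (if x then 1 else 0) ≠ 5 := by decide
    exact this i h
  · exfalso
    have : ∀ (x : Fin 3), (5 : Fin 6) ≠ MP_db9399_ts.cC x := by decide
    exact this j' h
  · exfalso
    have : ∀ (x : Bool), (5 : Fin 6) ≠ MP_db9399_ts.cQ (if x then 1 else 0) := by decide
    exact this i' h
  · rfl

theorem D6_ec (D : Cx.{u} → ℕ) (κ : Cx.{u}) : D6 D (ec κ) = D κ := by
  unfold D6
  have : (univ.filter fun κ' : Cx.{u} => ec κ' = ec κ) = {κ} := by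
    ext κ'
    rw [mem_filter, mem_singleton]
    constructor
    · rintro ⟨-, h⟩; exact ec_inj h
    · rintro rfl; exact ⟨mem_univ _, rfl⟩
  rw [this, sum_singleton]

theorem D6_sum (D : Cx.{u} → ℕ) : ∑ j, D6 D j = ∑ κ, D κ := by
  unfold D6
  exact sum_fiberwise univ ec D

theorem shC_of {πk : ℝ} {d : ℕ} (hd : 1 ≤ d) {D : Cx.{u} → ℕ} (h : ShaX πk d D) :
    ShC πk d (D6 D) (fun j => (D6 D j : ℝ) / d) := by
  have hd0 : (0 : ℝ) < d := by exact_mod_cast hd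
  have e1 : ∀ k : Fin 3, D6 D (MP_db9399_ts.cC k) = D (Cx.C k) := fun k => D6_ec D (Cx.C k)
  have e2 : ∀ k : Fin 2, D6 D (MP_db9399_ts.cQ k) = D (Cx.Q (decide (k = 1))) := fun k => by
    have h1 := D6_ec D (Cx.Q (decide (k = 1)))
    have h2 : ec (Cx.Q.{u} (decide (k = 1))) = MP_db9399_ts.cQ k := by
      have : ∀ k : Fin 2, MP_db9399_ts.cQ (if decide (k = 1) then 1 else 0) =
        MP_db9399_ts.cQ k := by decide
      exact this k
    rw [h2] at h1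
    exact h1
  have key : ∀ (x y z : ℝ), |x - y * d| ≤ z * d → |x / d - y| ≤ z := by
    intro x y z hxy
    have h1 : x / d - y = (x - y * d) / d := by field_simp
    rw [h1, abs_div, abs_of_pos hd0, div_le_iff₀ hd0]
    exact hxy
  refine ⟨?_, ?_, ?_, ?_, ?_, ?_⟩
  · intro j
    field_simp
  · rw [D6_sum]
    exact h.sum
  · intro k k'
    rw [e1, e1]
    exact h.eC k k'
  · intro k k'
    rw [e2, e2]
    cases decide (k = 1) <;> cases decide (k' = 1)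
    · rfl
    · exact h.eQ
    · exact h.eQ.symm
    · rfl
  · intro k
    rw [e1]
    exact key _ _ _ (h.C k)
  · intro k
    rw [e2]
    exact key _ _ _ (h.Q _)

theorem env_mono {W B : Type u} [Fintype W] [Fintype B] {X : Dat W B} {M : ℕ}
    {C ζ ζ' θ θ' c : ℝ} (h : Env X M C ζ θ c) (hζ : ζ ≤ ζ') (hθ : θ ≤ θ') :
    Env X M C ζ' θ' c := by
  have hd : (0 : ℝ) ≤ X.d := by positivity
  exact { h with
    thn := fun v hv => (h.thn v hv).trans (mul_le_mul_of_nonneg_right hζ hd)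
    v0c := fun q => (h.v0c q).trans (mul_le_mul_of_nonneg_right hθ hd) }

/-- **TRN.** -/
theorem stmt_TSPLIT_of (hTSI : Stmt_TSI.{u}) (hTRB : Stmt_TRB.{u}) : Stmt_TSPLIT.{u} := by
  intro πk hπ hπ'
  obtain ⟨c0, hc0, hc0', hT⟩ := hTSI πk hπ hπ'
  refine ⟨c0, 5, hc0, hc0', by norm_num, ?_⟩
  intro C ρ1 MS hC hρ1 hMS
  obtain ⟨Cm, ζ1, hCm, hζ1, hT⟩ := hT (⌈2 * C⌉₊ + 1) C ρ1 MS hC hρ1 (by linarith)
  obtain ⟨rr, hrr, T, hTP, hL⟩ := stmt_LPL.{u} C (max Cm 1) hC (le_max_right _ _)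
  set ζ0 := min ζ1 (1 / 64) with hζ0
  have hζ0p : 0 < ζ0 := lt_min hζ1 (by norm_num)
  have hζ0a : ζ0 ≤ ζ1 := min_le_left _ _
  have hζ0b : ζ0 ≤ 1 / 64 := min_le_right _ _
  refine ⟨ζ0 / (8 * C), rr, by positivity, hrr, ?_⟩
  intro g z θk η M hg hg' hz hz' hθk hθk' hη hη'
  let T' : Thr := { T with
    ζ0 := fun ρ π κ ε => min (T.ζ0 ρ π κ ε) ζ0
    θ0 := fun ρ π κ ε ζ => min (T.θ0 ρ π κ ε ζ) (ζ0 / 2) }
  refine ⟨T', ?_, ?_⟩
  · exact ⟨hTP.π0, hTP.κ0, hTP.ε0, fun ρ π κ ε h1 h2 h3 h4 => lt_min (hTP.ζ0 ρ π κ ε h1 h2 h3 h4)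
      hζ0p, fun ρ π κ ε ζ h1 h2 h3 h4 h5 => lt_min (hTP.θ0 ρ π κ ε ζ h1 h2 h3 h4 h5)
      (by linarith)⟩
  intro J S ρS c' hS hρS hc'
  have hS' : ∀ s, Adm T (S s) := fun s => ⟨(hS s).ρ, (hS s).π, (hS s).κ, (hS s).ε,
    ⟨(hS s).ζ.1, (hS s).ζ.2.trans (min_le_left _ _)⟩,
    ⟨(hS s).θ.1, (hS s).θ.2.trans (min_le_left _ _)⟩⟩
  have hSζ : ∀ s, (S s).ζ ≤ ζ0 := fun s => (hS s).ζ.2.trans (min_le_right _ _)
  have hSθ : ∀ s, (S s).θ ≤ ζ0 / 2 := fun s => (hS s).θ.2.trans (min_le_right _ _)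
  obtain ⟨d1, hL⟩ := hL η J S ρS hη hS' hρS
  obtain ⟨d2, hT⟩ := hT (min c' (1 / 100)) 3 (lt_min hc' (by norm_num)) (min_le_right _ _)
    (by norm_num)
  obtain ⟨d3, hd3⟩ := MP_db9399_ts.helper95.num0 (10 ^ 7 * C)
  refine ⟨d1 + d2 + d3 + 1, ?_⟩
  intro V _ N G d X D θ' t hd hθ' hP hPS hK hn hD ht ht'
  have hd1 : 1 ≤ d := by omega
  have hy := hd3 d (by omega)
  have hy8 : HyT C g z θk θ' η ((d : ℝ) ^ (-c')) M S G d X := ⟨hP, hK, hn⟩
  have h8C : (0 : ℝ) < 8 * C := by linarith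
  have hη8 : 8 * C * η ≤ ζ0 := by
    rw [le_div_iff₀ h8C] at hη'
    linarith
  have hθ8 : 8 * θ' ≤ ζ0 := by
    rw [le_div_iff₀ h8C] at hθ'
    by_cases h0 : 0 ≤ θ'
    · nlinarith
    · linarith
  have hE := env_mono (env_of hy8 hC hg hθk' hη hζ0p hζ0b hη8 hθ8 hSζ hSθ hd1
    (min_le_left c' (1 / 100))) hζ0a hζ0a
  obtain ⟨I, hI1, hI2, hI3, hI4⟩ := hL G d X g z θk θ' ((d : ℝ) ^ (-c')) M (by omega) hθk' hPS
  obtain ⟨th, pt, sd, H, Ex, hTs, hLb⟩ := hT (datX G d X) (D6 D) (fun j => (D6 D j : ℝ) / d) t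
    (al I) (by change _ ≤ d; omega) hE (shC_of hd1 hD) (fun b hb => by
      have hb' := (kd_N G d X b).1 hb
      change 4 ∣ (blk (blx X) b).card
      rw [blk_nB X b (by rw [hb']; decide)]
      have h1 := hP.n4 _ hb'
      rw [card_Ts] at h1
      have h2 : (pV X.P b.down.1.1).filter (fun v => v ∉ X.Hv) = pV X.P b.down.1.1 := by
        rw [filter_eq_self]
        intro v hv hv'
        have := (hK v hv').2
        rw [(mem_pV.1 hv).2, hb'] at this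
        exact absurd this (by decide)
      rw [h2]
      exact h1) ht ht' (al_fam I hd1 hI2 hI3)
  refine ⟨rlb X th pt sd, fun κ => H (ec κ), fun κ => Ex (ec κ), same_rlb X th pt sd, ?_, ?_⟩
  · exact hI4 _ (same_rlb X th pt sd) (labT_of hy8 hC hd1 hy (le_max_left _ _)
      (fun s => (hS s).ζ.1) I hI1 hLb)
  · exact hTRB hy8 hd1 hρ1 (by norm_num) hTs

end Pool.Agent.Work.MP_db9399_trn.helper95
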