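import Pool.Agent.Work.MP_db9399_ts.Shares
import Pool.Agent.Work.MP_db9399_iv.TSplit

/-!
# MP_db9399, TSPLIT, block TRN (helper95), part 1: the data `datX` of `XD` and `Env`

Blocks `BX X` (sides of the pieces of type B, light vertices of the other pieces).
-/

set_option autoImplicit false

namespace Pool.Agent.Work.MP_db9399_trn.helper95

open Finset Classical
open Pool.Agent.Work.MP_db9399_all (nb)
open Pool.Agent.Work.MP_db9399_da
open Pool.Agent.Work.MP_db9399_xf
open Pool.Agent.Work.MP_db9399_iv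
open Pool.Agent.Work.MP_db9399_ts (Dat Env Kd)
open Pool.Agent.Work.MP_db9399_clj.helper75 (OO blk nB eE)

universe u

variable {V : Type u} {N J : ℕ}

/-- number of the cluster of a piece -/
noncomputable def cbx (X : XD V N J) (n : Fin N) : ℕ :=
  if h : ∃ v, v ∉ X.P.V0 ∧ X.P.pc v = n then (X.cq h.choose).getD 0 else 0

/-- the data -/
noncomputable def datX (G : SimpleGraph V) (d : ℕ) (X : XD V N J) : Dat V (BX X) where
  G := G
  Bk := Bkx G X
  bl := blx X
  op := opx X
  kd b := if X.P.ty b.down.1.1 = Ty.K then Kd.K else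
    if X.P.ty b.down.1.1 = Ty.N then Kd.N else Kd.S
  sb b := b.down.1.2
  rp b := if h : X.P.ty b.down.1.1 = Ty.B then ⟨⟨(b.down.1.1, false), b.down.2.1, Or.inl h⟩⟩ else b
  cb b := cbx X b.down.1.1
  cq := X.cq
  ix b := (univ.filter fun b' : BX X => cbx X b'.down.1.1 = cbx X b.down.1.1 ∧
    Fintype.equivFin (BX X) b' < Fintype.equivFin (BX X) b).card
  d := d

theorem BX_ext {X : XD V N J} {b b' : BX X} (h : b.down.1 = b'.down.1) : b = b' := by
  rcases b with ⟨b, hb⟩
  rcases b' with ⟨b', hb'⟩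
  simp only at h
  subst h
  rfl

/-- a block -/
def mkB (X : XD V N J) (n : Fin N) (s : Bool) (h1 : X.P.ty n ≠ Ty.E)
    (h2 : X.P.ty n = Ty.B ∨ s = false) : BX X := ⟨⟨(n, s), h1, h2⟩⟩

theorem mkB_down (X : XD V N J) (n : Fin N) (s : Bool) (h1 : X.P.ty n ≠ Ty.E)
    (h2 : X.P.ty n = Ty.B ∨ s = false) : (mkB X n s h1 h2).down.1 = (n, s) := rfl

theorem bx_some (X : XD V N J) (n : Fin N) (s : Bool) (b : BX X) :
    bx X n s = some b ↔ b.down.1.1 = n ∧ (X.P.ty n = Ty.B → b.down.1.2 = s) := by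
  by_cases hE : X.P.ty n ≠ Ty.E
  · by_cases hB : X.P.ty n = Ty.B
    · have e : bx X n s = some (mkB X n s hE (Or.inl hB)) :=
        (dif_pos hE).trans (congrArg some (dif_pos hB))
      rw [e, Option.some.injEq]
      constructor
      · rintro rfl
        exact ⟨rfl, fun _ => rfl⟩
      · rintro ⟨h1, h2⟩
        exact BX_ext (Prod.ext h1.symm (h2 hB).symm)
    · have e : bx X n s = some (mkB X n false hE (Or.inr rfl)) :=
        (dif_pos hE).trans (congrArg some (dif_neg hB))
      rw [e, Option.some.injEq]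
      constructor
      · rintro rfl
        exact ⟨rfl, fun h => absurd h hB⟩
      · rintro ⟨h1, -⟩
        refine BX_ext (Prod.ext h1.symm ?_)
        have h3 := b.down.2.2
        rcases h3 with h3 | h3
        · rw [h1] at h3; exact absurd h3 hB
        · exact h3.symm
  · unfold bx
    rw [dif_neg hE]
    constructor
    · intro h; exact absurd h (by simp)
    · rintro ⟨h1, -⟩
      have := b.down.2.1
      rw [h1] at this
      exact absurd this hE

theorem bx_none (X : XD V N J) (n : Fin N) (s : Bool) : bx X n s = none ↔ X.P.ty n = Ty.E := by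
  unfold bx
  by_cases hE : X.P.ty n ≠ Ty.E
  · rw [dif_pos hE]
    simp [hE]
  · rw [dif_neg hE]
    push Not at hE
    simp [hE]

theorem blx_some (X : XD V N J) (v : V) (b : BX X) :
    blx X v = some b ↔ ¬ InO X v ∧ b.down.1.1 = X.P.pc v ∧
      (X.P.ty (X.P.pc v) = Ty.B → b.down.1.2 = X.P.sd v) := by
  unfold blx
  by_cases hO : InO X v
  · rw [if_pos hO]
    simp [hO]
  · rw [if_neg hO, bx_some]
    simp [hO]

variable [Fintype V]

/-- hypotheses -/
structure HyT (C g z θk θ' η a : ℝ) (M : ℕ) (S : Fin J → Scl) (G : SimpleGraph V) (d : ℕ)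
    (X : XD V N J) : Prop where
  P : PcD C g z θk θ' η a M S G d X
  K : ∀ v ∈ X.Hv, InT X Ty.K v
  n : V0n G d X

theorem mem_nb {G : SimpleGraph V} {v w : V} : w ∈ nb G v ↔ G.Adj v w := by simp [nb]

theorem mem_pV {X : XD V N J} {n : Fin N} {v : V} :
    v ∈ pV X.P n ↔ v ∉ X.P.V0 ∧ X.P.pc v = n := by
  simp [pV]

theorem mem_sV {X : XD V N J} {n : Fin N} {β : Bool} {v : V} :
    v ∈ sV X.P n β ↔ v ∉ X.P.V0 ∧ X.P.pc v = n ∧ X.P.sd v = β := by
  simp [sV]

section Basic

variable {C g z θk θ' η a : ℝ} {M : ℕ} {S : Fin J → Scl} {G : SimpleGraph V} {d : ℕ}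
  {X : XD V N J}

theorem ty_ne (h : PcD C g z θk θ' η a M S G d X) {v : V} (hv : v ∉ X.P.V0) :
    X.P.ty (X.P.pc v) ≠ Ty.E := by
  intro hE
  exact (h.emp _ hE).false ⟨v, hv, rfl⟩

theorem blx_none (h : PcD C g z θk θ' η a M S G d X) (v : V) : blx X v = none ↔ InO X v := by
  unfold blx
  by_cases hO : InO X v
  · rw [if_pos hO]; simp [hO]
  · rw [if_neg hO, bx_none]
    have hv : v ∉ X.P.V0 := fun h' => hO (Or.inl h')
    simp [hO, ty_ne h hv]

/-- every vertex outside `O` is in a block -/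
theorem blx_ex (h : PcD C g z θk θ' η a M S G d X) {v : V} (hv : ¬ InO X v) :
    ∃ b, blx X v = some b := by
  cases hb : blx X v with
  | none => exact absurd ((blx_none h v).1 hb) hv
  | some b => exact ⟨b, rfl⟩

theorem cq_cbx (h : PcD C g z θk θ' η a M S G d X) {v : V} (hv : v ∉ X.P.V0) :
    X.cq v = some (cbx X (X.P.pc v)) := by
  unfold cbx
  have hex : ∃ w, w ∉ X.P.V0 ∧ X.P.pc w = X.P.pc v := ⟨v, hv, rfl⟩
  rw [dif_pos hex]
  have h1 := hex.choose_spec
  have h2 := h.clp _ _ h1.1 hv h1.2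
  rw [h2]
  cases hc : X.cq v with
  | none => exact absurd hc (h.cln v hv)
  | some k => rfl

theorem kd_cases (X : XD V N J) (b : BX X) : X.P.ty b.down.1.1 = Ty.K ∨
    X.P.ty b.down.1.1 = Ty.N ∨ X.P.ty b.down.1.1 = Ty.B := by
  have := b.down.2.1
  cases h : X.P.ty b.down.1.1 <;> simp_all

theorem kd_S (G : SimpleGraph V) (d : ℕ) (X : XD V N J) (b : BX X) :
    (datX G d X).kd b = Kd.S ↔ X.P.ty b.down.1.1 = Ty.B := by
  unfold datX
  rcases kd_cases X b with h | h | h <;> simp [h]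

theorem kd_K (G : SimpleGraph V) (d : ℕ) (X : XD V N J) (b : BX X) :
    (datX G d X).kd b = Kd.K ↔ X.P.ty b.down.1.1 = Ty.K := by
  unfold datX
  rcases kd_cases X b with h | h | h <;> simp [h]

theorem kd_N (G : SimpleGraph V) (d : ℕ) (X : XD V N J) (b : BX X) :
    (datX G d X).kd b = Kd.N ↔ X.P.ty b.down.1.1 = Ty.N := by
  unfold datX
  rcases kd_cases X b with h | h | h <;> simp [h]

theorem opx_B (X : XD V N J) (b : BX X) (h : X.P.ty b.down.1.1 = Ty.B) :
    (opx X b).down.1 = (b.down.1.1, !b.down.1.2) := by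
  have e : opx X b = mkB X b.down.1.1 (!b.down.1.2) b.down.2.1 (Or.inl h) := dif_pos h
  rw [e]
  rfl

theorem opx_nB (X : XD V N J) (b : BX X) (h : X.P.ty b.down.1.1 ≠ Ty.B) : opx X b = b := dif_neg h

theorem opx_pc (X : XD V N J) (b : BX X) : (opx X b).down.1.1 = b.down.1.1 := by
  by_cases h : X.P.ty b.down.1.1 = Ty.B
  · rw [opx_B X b h]
  · rw [opx_nB X b h]

theorem opx_opx (X : XD V N J) (b : BX X) : opx X (opx X b) = b := by
  by_cases h : X.P.ty b.down.1.1 = Ty.B
  · refine BX_ext ?_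
    have h1 := opx_B X b h
    have h2 : X.P.ty (opx X b).down.1.1 = Ty.B := by rw [h1]; exact h
    rw [opx_B X _ h2, h1]
    simp
  · rw [opx_nB X b h, opx_nB X b h]

/-- the block of a vertex of a piece of type B is its side -/
theorem blk_B (h : HyT C g z θk θ' η a M S G d X) (b : BX X) (hB : X.P.ty b.down.1.1 = Ty.B) :
    blk (blx X) b = sV X.P b.down.1.1 b.down.1.2 := by
  ext v
  unfold blk
  rw [mem_filter, mem_sV, blx_some]
  simp only [mem_univ, true_and]
  constructor
  · rintro ⟨h1, h2, h3⟩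
    refine ⟨fun h' => h1 (Or.inl h'), h2.symm, ?_⟩
    rw [h2] at hB
    exact (h3 hB).symm
  · rintro ⟨h1, h2, h3⟩
    refine ⟨?_, h2.symm, fun _ => h3.symm⟩
    rintro (h' | h')
    · exact h1 h'
    · have := (h.K v h').2
      rw [h2, hB] at this
      exact absurd this (by decide)

/-- the block of a piece of another type -/
theorem blk_nB (X : XD V N J) (b : BX X) (hB : X.P.ty b.down.1.1 ≠ Ty.B) :
    blk (blx X) b = (pV X.P b.down.1.1).filter fun v => v ∉ X.Hv := by
  ext v
  unfold blk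
  rw [mem_filter, mem_filter, mem_pV, blx_some]
  simp only [mem_univ, true_and]
  constructor
  · rintro ⟨h1, h2, -⟩
    exact ⟨⟨fun h' => h1 (Or.inl h'), h2.symm⟩, fun h' => h1 (Or.inr h')⟩
  · rintro ⟨⟨h1, h2⟩, h3⟩
    refine ⟨?_, h2.symm, fun h' => ?_⟩
    · rintro (h' | h')
      · exact h1 h'
      · exact h3 h'
    · rw [h2] at h'; exact absurd h' hB

theorem card_Ts (P : Pcs V N) (n : Fin N) : Fintype.card (Ts P n) = (pV P n).card := by
  unfold pV
  rw [Fintype.card_subtype]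

end Basic

section Sizes

variable {C g z θk θ' η a : ℝ} {M : ℕ} {S : Fin J → Scl} {G : SimpleGraph V} {d : ℕ}
  {X : XD V N J}

/-- lower bound for the sizes of the blocks -/
theorem sz_lo (h : HyT C g z θk θ' η a M S G d X) (hg : 0 < g) (hθk : θk ≤ 1 / 100)
    (hη : η ≤ 1 / 64) (hd : 1 ≤ d) (hζ : ∀ s, (S s).ζ ≤ 1 / 2) (b : BX X) :
    (d : ℝ) / 2 ≤ ((blk (blx X) b).card : ℝ) := by
  have hd0 : (0 : ℝ) < d := by exact_mod_cast hd
  rcases kd_cases X b with hb | hb | hb
  · -- K
    rw [blk_nB X b (by rw [hb]; decide)]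
    have h1 := h.P.kL _ hb
    have h2 := h.P.kh _ hb
    have h3 : ((pV X.P b.down.1.1).card : ℝ) = (((pV X.P b.down.1.1) ∩ X.Hv).card : ℝ) +
        (((pV X.P b.down.1.1).filter fun v => v ∉ X.Hv).card : ℝ) := by
      have h4 := card_filter_add_card_filter_not (s := pV X.P b.down.1.1) (fun v => v ∈ X.Hv)
      rw [filter_mem_eq_inter] at h4
      exact_mod_cast h4.symm
    nlinarith
  · -- N
    rw [blk_nB X b (by rw [hb]; decide)]
    have h1 := h.P.nL _ hb
    rw [card_Ts] at h1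
    have h3 : (pV X.P b.down.1.1).filter (fun v => v ∉ X.Hv) = pV X.P b.down.1.1 := by
      rw [filter_eq_self]
      intro v hv hv'
      have := (h.K v hv').2
      rw [(mem_pV.1 hv).2, hb] at this
      exact absurd this (by decide)
    rw [h3]
    nlinarith
  · -- B
    rw [blk_B h b hb]
    have key : ∀ β, (sV X.P b.down.1.1 β).Nonempty →
        (d : ℝ) / 2 ≤ ((sV X.P b.down.1.1 (!β)).card : ℝ) := by
      rintro β ⟨v, hv⟩
      rw [mem_sV] at hv
      have h1 := h.P.thd v (Or.inr ⟨hv.1, by rw [hv.2.1]; exact hb⟩)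
      have h2 : (nb G v).card ≤ (nb (thin G X.P) v).card + (sV X.P b.down.1.1 (!β)).card := by
        rw [← card_union_add_card_inter]
        refine le_trans (card_le_card ?_) (Nat.le_add_right _ _)
        intro w hw
        rw [mem_nb] at hw
        rw [mem_union, mem_nb, mem_sV]
        by_cases hbu : (bulk G X.P).Adj v w
        · right
          obtain ⟨_, _, h3, h4, h5⟩ := hbu
          refine ⟨h3, by rw [← h4, hv.2.1], ?_⟩
          have h6 := h5 (by rw [hv.2.1]; exact hb)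
          rw [hv.2.2] at h6
          cases β <;> cases hw' : X.P.sd w <;> simp_all
        · left; exact ⟨hw, hbu⟩
      rw [h.P.reg] at h2
      have h3 : (d : ℝ) ≤ ((nb (thin G X.P) v).card : ℝ) +
          ((sV X.P b.down.1.1 (!β)).card : ℝ) := by exact_mod_cast h2
      have h4 := hζ (X.sc (X.P.pc v))
      nlinarith
    obtain ⟨v, hv⟩ := h.P.bN _ hb
    rw [mem_pV] at hv
    have hE := h.P.bE _ hb
    have hne : (sV X.P b.down.1.1 (X.P.sd v)).Nonempty := ⟨v, mem_sV.2 ⟨hv.1, hv.2, rfl⟩⟩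
    have hall : ∀ β, (sV X.P b.down.1.1 β).Nonempty := by
      intro β
      rw [← card_pos] at hne ⊢
      cases β <;> cases hs : X.P.sd v <;> simp_all
    have := key (!b.down.1.2) (hall _)
    rw [Bool.not_not] at this
    exact this

theorem blk_cq (h : PcD C g z θk θ' η a M S G d X) {b : BX X} {v : V} (hv : v ∈ blk (blx X) b) :
    X.cq v = some (cbx X b.down.1.1) := by
  unfold blk at hv
  rw [mem_filter, blx_some] at hv
  obtain ⟨-, h1, h2, -⟩ := hv
  rw [h2]
  exact cq_cbx h fun h' => h1 (Or.inl h')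

theorem sz_up (h : PcD C g z θk θ' η a M S G d X) (b : BX X) :
    ((blk (blx X) b).card : ℝ) ≤ C * d := by
  refine le_trans ?_ (h.clc (cbx X b.down.1.1))
  refine Nat.cast_le.2 (card_le_card fun v hv => ?_)
  rw [mem_filter]
  exact ⟨mem_univ _, blk_cq h hv⟩

/-- number of the blocks of a cluster -/
theorem nblocks (h : HyT C g z θk θ' η a M S G d X) (hg : 0 < g) (hθk : θk ≤ 1 / 100)
    (hη : η ≤ 1 / 64) (hd : 1 ≤ d) (hζ : ∀ s, (S s).ζ ≤ 1 / 2) (k : ℕ) :
    ((univ.filter fun b : BX X => cbx X b.down.1.1 = k).card : ℝ) ≤ 2 * C := by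
  have hd0 : (0 : ℝ) < d := by exact_mod_cast hd
  have h1 : ((univ.filter fun b : BX X => cbx X b.down.1.1 = k).biUnion
      fun b => blk (blx X) b).card =
      ∑ b ∈ univ.filter (fun b : BX X => cbx X b.down.1.1 = k), (blk (blx X) b).card := by
    refine card_biUnion fun b _ b' _ hbb => ?_
    refine Finset.disjoint_left.2 ?_
    intro v hv hv'
    unfold blk at hv hv'
    rw [mem_filter] at hv hv'
    rw [hv.2] at hv'
    exact hbb (Option.some.inj hv'.2)
  have h2 : (((univ.filter fun b : BX X => cbx X b.down.1.1 = k).biUnion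
      fun b => blk (blx X) b).card : ℝ) ≤ C * d := by
    refine le_trans ?_ (h.P.clc k)
    refine Nat.cast_le.2 (card_le_card fun v hv => ?_)
    rw [mem_biUnion] at hv
    obtain ⟨b, hb, hv⟩ := hv
    rw [mem_filter] at hb ⊢
    refine ⟨mem_univ _, ?_⟩
    rw [blk_cq h.P hv, hb.2]
  rw [h1] at h2
  push_cast at h2
  have h3 : ∑ b ∈ univ.filter (fun b : BX X => cbx X b.down.1.1 = k), (d : ℝ) / 2 ≤
      ∑ b ∈ univ.filter (fun b : BX X => cbx X b.down.1.1 = k), ((blk (blx X) b).card : ℝ) :=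
    sum_le_sum fun b _ => sz_lo h hg hθk hη hd hζ b
  rw [sum_const, nsmul_eq_mul] at h3
  have h4 := h3.trans h2
  by_contra hcon
  push Not at hcon
  nlinarith

end Sizes

/-! ### the output -/

/-- the classes -/
def ec : Cx.{u} → Fin 6
  | Cx.C j => MP_db9399_ts.cC j
  | Cx.Q i => MP_db9399_ts.cQ (if i then 1 else 0)
  | Cx.R => 5

/-- the degrees -/
noncomputable def D6 (D : Cx.{u} → ℕ) (j : Fin 6) : ℕ := ∑ κ with ec κ = j, D κ

/-- the pieces with new labels, the sides of the pieces of type B are kept -/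
noncomputable def rlb (X : XD V N J) (th : V → Fin 3) (pt : V → Fin 2) (sd : V → Bool) :
    XD V N J :=
  { X with P := { X.P with
      sd := fun v => if X.P.ty (X.P.pc v) = Ty.B then X.P.sd v else sd v
      pt := fun v => decide (pt v = 1)
      th := th } }

/-- TRB: the graphs of the classes -/
def Stmt_TRB : Prop :=
  ∀ {V : Type u} [Fintype V] {N J : ℕ} {C g z θk θ' η a : ℝ} {M : ℕ} {S : Fin J → Scl}
    {G : SimpleGraph V} {d : ℕ} {X : XD V N J} {D : Cx.{u} → ℕ} {c t ρ K1 CC : ℝ} {th : V → Fin 3}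
    {pt : V → Fin 2} {sd : V → Bool} {H : Fin 6 → SimpleGraph V} {Ex : Fin 6 → Finset V},
    HyT C g z θk θ' η a M S G d X → 1 ≤ d → 0 < ρ → 5 ≤ CC →
    MP_db9399_ts.Tsi (datX G d X) c t ρ K1 (D6 D) th pt sd H Ex →
    TsX c t CC ρ K1 G d (rlb X th pt sd) D (fun κ => H (ec κ)) fun κ => Ex (ec κ)

end Pool.Agent.Work.MP_db9399_trn.helper95
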