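import Pool.Agent.Work.MP_db9399_trn_helper95.Env1

/-!
# MP_db9399, TSPLIT, block TRN (helper95), part 2: `Env` for `datX`
-/

set_option autoImplicit false

namespace Pool.Agent.Work.MP_db9399_trn.helper95

open Finset Classical
open Pool.Agent.Work.MP_db9399_all (nb)
open Pool.Agent.Work.MP_db9399_da
open Pool.Agent.Work.MP_db9399_xf
open Pool.Agent.Work.MP_db9399_iv
open Pool.Agent.Work.MP_db9399_ts (Dat Env Kd)
open Pool.Agent.Work.MP_db9399_clj.helper75 (OO blk nB eE)

universe u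

variable {V : Type u} [Fintype V] {N J : ℕ} {C g z θk θ' η a : ℝ} {M : ℕ} {S : Fin J → Scl}
  {G : SimpleGraph V} {d : ℕ} {X : XD V N J}

theorem blk_cb (h : PcD C g z θk θ' η a M S G d X) {b : BX X} {v : V} (hv : blx X v = some b) :
    X.cq v = some (cbx X b.down.1.1) := by
  rw [blx_some] at hv
  obtain ⟨h1, h2, -⟩ := hv
  rw [h2]
  exact cq_cbx h fun h' => h1 (Or.inl h')

/-- the heavy members of a piece of type K -/
theorem heavy_le (h : HyT C g z θk θ' η a M S G d X) (hθk : θk ≤ 1 / 100) (hη0 : 0 < η)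
    {n : Fin N} (hn : X.P.ty n = Ty.K) : ((pV X.P n ∩ X.Hv).card : ℝ) ≤ 2 * η * d := by
  have h1 := h.P.kh n hn
  have h2 := h.P.kU n hn
  have hd0 : (0 : ℝ) ≤ d := by positivity
  have h3 : ((pV X.P n).card : ℝ) ≤ 2 * d := by nlinarith
  nlinarith

/-- thin degrees of the light vertices -/
theorem thn_of (h : HyT C g z θk θ' η a M S G d X) (hC : 1 ≤ C) (hθk : θk ≤ 1 / 100)
    (hη0 : 0 < η) {ζ0 : ℝ} (hη : 8 * C * η ≤ ζ0) (hθ' : 8 * θ' ≤ ζ0)
    (hSζ : ∀ s, (S s).ζ ≤ ζ0) {v : V} (hv : ¬ InO X v) :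
    ((nb (datX G d X).Th v).card : ℝ) ≤ ζ0 * d := by
  have hd0 : (0 : ℝ) ≤ d := by positivity
  have hv0 : v ∉ X.P.V0 := fun h' => hv (Or.inl h')
  have hvH : v ∉ X.Hv := fun h' => hv (Or.inr h')
  have hTh : ∀ w, (datX G d X).Th.Adj v w ↔ G.Adj v w ∧ ¬ (Bkx G X).Adj v w := by
    intro w
    unfold Dat.Th datX
    rw [SimpleGraph.sdiff_adj]
  by_cases hK : X.P.ty (X.P.pc v) = Ty.K
  · -- type K
    have hk := h.P.kl v ⟨⟨hv0, hK⟩, hvH⟩
    have hsub : (nb (datX G d X).Th v).card ≤ (nb G v \ pV X.P (X.P.pc v)).card +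
        (pV X.P (X.P.pc v) ∩ X.Hv).card := by
      refine le_trans (card_le_card ?_) (card_union_le _ _)
      intro w hw
      rw [mem_nb, hTh] at hw
      rw [mem_union, mem_sdiff, mem_inter, mem_nb]
      by_cases hwp : w ∈ pV X.P (X.P.pc v)
      · right
        refine ⟨hwp, ?_⟩
        rw [mem_pV] at hwp
        by_contra hwH
        apply hw.2
        refine ⟨⟨hw.1, hv0, hwp.1, hwp.2.symm, fun h' => ?_⟩, hv, ?_⟩
        · rw [hK] at h'; exact absurd h' (by decide)
        · rintro (h' | h')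
          · exact hwp.1 h'
          · exact hwH h'
      · left; exact ⟨hw.1, hwp⟩
    have h1 : ((nb G v \ pV X.P (X.P.pc v)).card : ℝ) + ((nb G v ∩ pV X.P (X.P.pc v)).card : ℝ) =
        d := by
      have h2 := card_sdiff_add_card_inter (nb G v) (pV X.P (X.P.pc v))
      rw [h.P.reg] at h2
      exact_mod_cast h2
    have h2 := heavy_le h hθk hη0 hK
    have h3 : ((nb (datX G d X).Th v).card : ℝ) ≤ ((nb G v \ pV X.P (X.P.pc v)).card : ℝ) +
        ((pV X.P (X.P.pc v) ∩ X.Hv).card : ℝ) := by exact_mod_cast hsub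
    have h4 : 8 * η ≤ ζ0 := by nlinarith
    nlinarith
  · -- types N, B
    have hNB : InT X Ty.N v ∨ InT X Ty.B v := by
      have hE := ty_ne h.P hv0
      cases ht : X.P.ty (X.P.pc v)
      · exact absurd ht hE
      · exact absurd ht hK
      · exact Or.inl ⟨hv0, ht⟩
      · exact Or.inr ⟨hv0, ht⟩
    have h1 := h.P.thd v hNB
    have h2 : (nb (datX G d X).Th v).card ≤ (nb (thin G X.P) v).card := by
      refine card_le_card fun w hw => ?_
      rw [mem_nb, hTh] at hw
      rw [mem_nb]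
      refine ⟨hw.1, fun hb => hw.2 ⟨hb, hv, ?_⟩⟩
      rintro (h' | h')
      · exact hb.2.2.1 h'
      · have := (h.K w h').2
        rw [← hb.2.2.2.1] at this
        exact hK this
    have h3 : ((nb (datX G d X).Th v).card : ℝ) ≤ ((nb (thin G X.P) v).card : ℝ) := by
      exact_mod_cast h2
    have h4 := hSζ (X.sc (X.P.pc v))
    nlinarith

/-- the vertices of `O` in a cluster -/
theorem v0c_of (h : HyT C g z θk θ' η a M S G d X) (hC : 1 ≤ C) (hη0 : 0 < η) {ζ0 : ℝ}
    (hζ0 : 0 < ζ0)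
    (hη : 8 * C * η ≤ ζ0) (hSθ : ∀ s, (S s).θ ≤ ζ0 / 2) (hd : 1 ≤ d) (q : ℕ) :
    (((univ.filter fun x => InO X x).filter fun x => X.cq x = some q).card : ℝ) ≤ ζ0 * d := by
  have hd0 : (0 : ℝ) < d := by exact_mod_cast hd
  -- the part in `V0`
  have h1 : ((univ.filter fun x => x ∈ X.P.V0 ∧ X.cq x = some q).card : ℝ) ≤ ζ0 / 2 * d := by
    by_cases hne : (univ.filter fun x => x ∈ X.P.V0 ∧ X.cq x = some q).Nonempty
    · obtain ⟨x, hx⟩ := hne
      rw [mem_filter] at hx
      have h2 := h.n x hx.2.1 q hx.2.2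
      have h3 : ((nb G x).filter fun v => ¬ InO X v ∧ X.cq v = some q).Nonempty := by
        rw [← card_pos]
        have : (0 : ℝ) < (((nb G x).filter fun v => ¬ InO X v ∧ X.cq v = some q).card : ℝ) := by
          nlinarith
        exact_mod_cast this
      obtain ⟨v, hv⟩ := h3
      rw [mem_filter] at hv
      have h4 := h.P.v0c v (fun h' => hv.2.1 (Or.inl h'))
      rw [hv.2.2] at h4
      have h5 := hSθ (X.sc (X.P.pc v))
      refine h4.trans ?_
      nlinarith
    · rw [not_nonempty_iff_eq_empty] at hne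
      rw [hne]
      simp only [card_empty, Nat.cast_zero]
      positivity
  -- the heavy part
  have h2 : ((univ.filter fun x => x ∈ X.Hv ∧ X.cq x = some q).card : ℝ) ≤ ζ0 / 2 * d := by
    set Nq := univ.filter fun n : Fin N => X.P.ty n = Ty.K ∧ ∃ v, v ∉ X.P.V0 ∧ X.P.pc v = n ∧
      X.cq v = some q with hNq
    have e1 : (univ.filter fun x => x ∈ X.Hv ∧ X.cq x = some q).card ≤
        ∑ n ∈ Nq, (pV X.P n ∩ X.Hv).card := by
      refine le_trans (card_le_card ?_) card_biUnion_le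
      intro x hx
      rw [mem_filter] at hx
      have hxK := h.K x hx.2.1
      rw [mem_biUnion]
      refine ⟨X.P.pc x, ?_, ?_⟩
      · rw [hNq, mem_filter]
        exact ⟨mem_univ _, hxK.2, x, hxK.1, rfl, hx.2.2⟩
      · rw [mem_inter, mem_pV]
        exact ⟨⟨hxK.1, rfl⟩, hx.2.1⟩
    have e2 : ∑ n ∈ Nq, ((pV X.P n).card : ℝ) ≤ C * d := by
      have e3 : (Nq.biUnion fun n => pV X.P n).card = ∑ n ∈ Nq, (pV X.P n).card := by
        refine card_biUnion fun n _ n' _ hnn => ?_
        refine Finset.disjoint_left.2 ?_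
        intro v hv hv'
        rw [mem_pV] at hv hv'
        exact hnn (hv.2.symm.trans hv'.2)
      have e4 : ((Nq.biUnion fun n => pV X.P n).card : ℝ) ≤ C * d := by
        refine le_trans ?_ (h.P.clc q)
        refine Nat.cast_le.2 (card_le_card fun v hv => ?_)
        rw [mem_biUnion] at hv
        obtain ⟨n, hn, hv⟩ := hv
        rw [hNq, mem_filter] at hn
        obtain ⟨-, -, w, hw1, hw2, hw3⟩ := hn
        rw [mem_pV] at hv
        rw [mem_filter]
        refine ⟨mem_univ _, ?_⟩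
        rw [← hw3]
        exact h.P.clp v w hv.1 hw1 (hv.2.trans hw2.symm)
      rw [e3] at e4
      push_cast at e4
      exact e4
    calc ((univ.filter fun x => x ∈ X.Hv ∧ X.cq x = some q).card : ℝ) ≤
          ((∑ n ∈ Nq, (pV X.P n ∩ X.Hv).card : ℕ) : ℝ) := by exact_mod_cast e1
      _ = ∑ n ∈ Nq, ((pV X.P n ∩ X.Hv).card : ℝ) := by push_cast; rfl
      _ ≤ ∑ n ∈ Nq, η * ((pV X.P n).card : ℝ) := by
          refine sum_le_sum fun n hn => ?_
          rw [hNq, mem_filter] at hn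
          exact h.P.kh n hn.2.1
      _ = η * ∑ n ∈ Nq, ((pV X.P n).card : ℝ) := by rw [mul_sum]
      _ ≤ η * (C * d) := mul_le_mul_of_nonneg_left e2 hη0.le
      _ ≤ ζ0 / 2 * d := by nlinarith
  have h3 : ((univ.filter fun x => InO X x).filter fun x => X.cq x = some q).card ≤
      (univ.filter fun x => x ∈ X.P.V0 ∧ X.cq x = some q).card +
      (univ.filter fun x => x ∈ X.Hv ∧ X.cq x = some q).card := by
    refine le_trans (card_le_card ?_) (card_union_le _ _)
    intro x hx
    rw [mem_filter, mem_filter] at hx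
    rw [mem_union, mem_filter, mem_filter]
    obtain ⟨⟨-, h1 | h1⟩, h2⟩ := hx
    · left; exact ⟨mem_univ _, h1, h2⟩
    · right; exact ⟨mem_univ _, h1, h2⟩
  have h4 : ((((univ.filter fun x => InO X x).filter fun x => X.cq x = some q).card : ℕ) : ℝ) ≤
      ((univ.filter fun x => x ∈ X.P.V0 ∧ X.cq x = some q).card : ℝ) +
      ((univ.filter fun x => x ∈ X.Hv ∧ X.cq x = some q).card : ℝ) := by exact_mod_cast h3
  linarith

/-- the vertices of `O` in a cluster have most neighbours there -/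
theorem v0n_of (h : HyT C g z θk θ' η a M S G d X) (hC : 1 ≤ C) (hθk : θk ≤ 1 / 100)
    (hη0 : 0 < η) {ζ0 : ℝ} (hζ0' : ζ0 ≤ 1 / 64) (hη : 8 * C * η ≤ ζ0) (x : V) (q : ℕ)
    (hx : InO X x) (hq : X.cq x = some q) : 5 / 8 * (d : ℝ) ≤
      (((nb G x).filter fun v => blx X v ≠ none ∧ X.cq v = some q).card : ℝ) := by
  have hd0 : (0 : ℝ) ≤ d := by positivity
  have hbl : ∀ v, blx X v ≠ none ↔ ¬ InO X v := fun v => by
    rw [Ne, blx_none h.P v]
  by_cases hx0 : x ∈ X.P.V0
  · refine (h.n x hx0 q hq).trans (Nat.cast_le.2 (card_le_card fun v hv => ?_))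
    rw [mem_filter] at hv ⊢
    exact ⟨hv.1, (hbl v).2 hv.2.1, hv.2.2⟩
  · have hxH : x ∈ X.Hv := hx.resolve_left hx0
    have hxK := h.K x hxH
    have h1 := h.P.kd x hxK
    have h2 := heavy_le h hθk hη0 hxK.2
    have h3 : (nb G x ∩ pV X.P (X.P.pc x)).card ≤
        ((nb G x).filter fun v => blx X v ≠ none ∧ X.cq v = some q).card +
        (pV X.P (X.P.pc x) ∩ X.Hv).card := by
      refine le_trans (card_le_card ?_) (card_union_le _ _)
      intro v hv
      rw [mem_inter] at hv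
      rw [mem_union, mem_filter, mem_inter]
      by_cases hvH : v ∈ X.Hv
      · right; exact ⟨hv.2, hvH⟩
      · left
        rw [mem_pV] at hv
        refine ⟨hv.1, (hbl v).2 ?_, ?_⟩
        · rintro (h' | h')
          · exact hv.2.1 h'
          · exact hvH h'
        · rw [← hq]
          exact h.P.clp v x hv.2.1 hx0 hv.2.2
    have h4 : ((nb G x ∩ pV X.P (X.P.pc x)).card : ℝ) ≤
        (((nb G x).filter fun v => blx X v ≠ none ∧ X.cq v = some q).card : ℝ) +
        ((pV X.P (X.P.pc x) ∩ X.Hv).card : ℝ) := by exact_mod_cast h3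
    have h5 : η ≤ 1 / 512 := by nlinarith
    nlinarith

theorem rp_B (G : SimpleGraph V) (d : ℕ) (X : XD V N J) (b : BX X)
    (h : X.P.ty b.down.1.1 = Ty.B) :
    (datX G d X).rp b = mkB X b.down.1.1 false b.down.2.1 (Or.inl h) := dif_pos h

theorem rp_nB (G : SimpleGraph V) (d : ℕ) (X : XD V N J) (b : BX X)
    (h : X.P.ty b.down.1.1 ≠ Ty.B) : (datX G d X).rp b = b := dif_neg h

theorem env_of {c c' : ℝ} (h : HyT C g z θk θ' η ((d : ℝ) ^ (-c')) M S G d X) (hC : 1 ≤ C)
    (hg : 0 < g) (hθk : θk ≤ 1 / 100) (hη0 : 0 < η) {ζ0 : ℝ} (hζ0 : 0 < ζ0)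
    (hζ0' : ζ0 ≤ 1 / 64) (hη : 8 * C * η ≤ ζ0) (hθ' : 8 * θ' ≤ ζ0) (hSζ : ∀ s, (S s).ζ ≤ ζ0)
    (hSθ : ∀ s, (S s).θ ≤ ζ0 / 2) (hd : 1 ≤ d) (hc : c ≤ c') :
    Env (datX G d X) (⌈2 * C⌉₊ + 1) C ζ0 ζ0 c := by
  have hd0 : (0 : ℝ) < d := by exact_mod_cast hd
  have hη64 : η ≤ 1 / 64 := by nlinarith
  have hS2 : ∀ s, (S s).ζ ≤ 1 / 2 := fun s => (hSζ s).trans (by linarith)
  have hbl : ∀ v, blx X v ≠ none ↔ ¬ InO X v := fun v => by
    rw [Ne, blx_none h.P v]
  constructor
  · exact h.P.reg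
  · intro v w hvw
    exact hvw.1.1
  · -- bk
    intro v w hvw
    obtain ⟨hb, hv, hw⟩ := hvw
    obtain ⟨b, hbv⟩ := blx_ex h.P hv
    refine ⟨b, hbv, ?_⟩
    change blx X w = some (opx X b)
    rw [blx_some] at hbv ⊢
    refine ⟨hw, ?_, fun hB => ?_⟩
    · rw [opx_pc, hbv.2.1, hb.2.2.2.1]
    · have hB' : X.P.ty b.down.1.1 = Ty.B := by rw [hbv.2.1, hb.2.2.2.1]; exact hB
      rw [opx_B X b hB']
      have h1 := hbv.2.2 (by rw [hb.2.2.2.1]; exact hB)
      have h2 := hb.2.2.2.2 (by rw [hb.2.2.2.1]; exact hB)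
      change (!b.down.1.2) = _
      rw [h1]
      cases hv' : X.P.sd v <;> cases hw' : X.P.sd w <;> simp_all
  · exact opx_opx X
  · -- opk
    intro b
    refine ⟨?_, ?_, ?_⟩
    · change (if X.P.ty (opx X b).down.1.1 = Ty.K then Kd.K else
        if X.P.ty (opx X b).down.1.1 = Ty.N then Kd.N else Kd.S) = _
      rw [opx_pc]
      rfl
    · change cbx X (opx X b).down.1.1 = cbx X b.down.1.1
      rw [opx_pc]
    · by_cases hB : X.P.ty b.down.1.1 = Ty.B
      · have hB' : X.P.ty (opx X b).down.1.1 = Ty.B := by rw [opx_pc]; exact hB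
        change (datX G d X).rp (opx X b) = _
        rw [rp_B G d X b hB, rp_B G d X (opx X b) hB']
        refine BX_ext ?_
        rw [mkB_down, mkB_down, opx_pc]
      · change (datX G d X).rp (opx X b) = _
        rw [opx_nB X b hB]
  · -- opN
    intro b hb
    have hB : X.P.ty b.down.1.1 ≠ Ty.B := fun h' => hb ((kd_S G d X b).2 h')
    exact ⟨opx_nB X b hB, rp_nB G d X b hB⟩
  · -- opS
    intro b hb
    have hB := (kd_S G d X b).1 hb
    refine ⟨?_, ?_⟩
    · change (opx X b).down.1.2 = !b.down.1.2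
      rw [opx_B X b hB]
    · change (blk (blx X) (opx X b)).card = (blk (blx X) b).card
      have hB' : X.P.ty (opx X b).down.1.1 = Ty.B := by rw [opx_pc]; exact hB
      rw [blk_B h b hB, blk_B h _ hB', opx_B X b hB]
      have := h.P.bE _ hB
      cases hs : b.down.1.2
      · exact this.symm
      · exact this
  · -- rpb
    intro b
    by_cases hB : X.P.ty b.down.1.1 = Ty.B
    · rw [rp_B G d X b hB]
      rcases Bool.eq_false_or_eq_true b.down.1.2 with hs | hs
      · right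
        refine BX_ext ?_
        change _ = (opx X b).down.1
        rw [mkB_down, opx_B X b hB, hs]
        rfl
      · left
        refine BX_ext ?_
        rw [mkB_down]
        exact Prod.ext rfl hs.symm
    · left; exact rp_nB G d X b hB
  · -- cl
    intro v b hv
    exact blk_cb h.P hv
  · -- ixM
    intro b
    have h1 := nblocks h hg hθk hη64 hd hS2 (cbx X b.down.1.1)
    have h2 : (univ.filter fun b' : BX X => cbx X b'.down.1.1 = cbx X b.down.1.1 ∧
        Fintype.equivFin (BX X) b' < Fintype.equivFin (BX X) b).card ≤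
        (univ.filter fun b' : BX X => cbx X b'.down.1.1 = cbx X b.down.1.1).card := by
      refine card_le_card fun b' hb' => ?_
      rw [mem_filter] at hb' ⊢
      exact ⟨hb'.1, hb'.2.1⟩
    have h3 : (univ.filter fun b' : BX X => cbx X b'.down.1.1 = cbx X b.down.1.1).card ≤
        ⌈2 * C⌉₊ := by
      have h4 := h1.trans (Nat.le_ceil (2 * C))
      exact_mod_cast h4
    change (univ.filter fun b' : BX X => cbx X b'.down.1.1 = cbx X b.down.1.1 ∧
        Fintype.equivFin (BX X) b' < Fintype.equivFin (BX X) b).card < _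
    omega
  · -- ixi
    have key : ∀ b b' : BX X, cbx X b.down.1.1 = cbx X b'.down.1.1 →
        Fintype.equivFin (BX X) b < Fintype.equivFin (BX X) b' →
        (univ.filter fun b'' : BX X => cbx X b''.down.1.1 = cbx X b.down.1.1 ∧
        Fintype.equivFin (BX X) b'' < Fintype.equivFin (BX X) b).card <
        (univ.filter fun b'' : BX X => cbx X b''.down.1.1 = cbx X b'.down.1.1 ∧
        Fintype.equivFin (BX X) b'' < Fintype.equivFin (BX X) b').card := by
      intro b b' hcb hlt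
      refine card_lt_card ?_
      rw [ssubset_iff_of_subset]
      · refine ⟨b, ?_, ?_⟩
        · rw [mem_filter]; exact ⟨mem_univ _, hcb, hlt⟩
        · rw [mem_filter]; exact fun h' => lt_irrefl _ h'.2.2
      · intro b'' hb''
        rw [mem_filter] at hb'' ⊢
        exact ⟨mem_univ _, hb''.2.1.trans hcb, hb''.2.2.trans hlt⟩
    intro b b' hcb hix
    by_contra hne
    have hne' : Fintype.equivFin (BX X) b ≠ Fintype.equivFin (BX X) b' :=
      fun h' => hne ((Fintype.equivFin (BX X)).injective h')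
    rcases lt_or_gt_of_ne hne' with hlt | hlt
    · exact absurd hix (key b b' hcb hlt).ne
    · exact absurd hix (key b' b hcb.symm hlt).ne'
  · -- sz
    intro b
    exact ⟨sz_lo h hg hθk hη64 hd hS2 b, sz_up h.P b⟩
  · -- out
    intro v hv
    have hv' := (hbl v).1 hv
    have h1 := h.P.out v (fun h' => hv' (Or.inl h')) (fun h' => hv' (Or.inr h'))
    refine h1.trans ?_
    have hd1 : (1 : ℝ) ≤ d := by exact_mod_cast hd
    calc (d : ℝ) ^ (-c') * d = (d : ℝ) ^ (-c') * (d : ℝ) ^ (1 : ℝ) := by rw [Real.rpow_one]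
      _ = (d : ℝ) ^ (-c' + 1) := by rw [Real.rpow_add hd0]
      _ ≤ (d : ℝ) ^ (1 - c) := Real.rpow_le_rpow_of_exponent_le hd1 (by linarith)
  · -- thn
    intro v hv
    exact thn_of h hC hθk hη0 hη hθ' hSζ ((hbl v).1 hv)
  · -- v0c
    intro q
    have h1 := v0c_of h hC hη0 hζ0 hη hSθ hd q
    have h2 : OO (blx X) = univ.filter fun x => InO X x := by
      unfold OO
      ext x
      rw [mem_filter, mem_filter, blx_none h.P]
    change (((OO (blx X)).filter fun x => X.cq x = some q).card : ℝ) ≤ _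
    rw [h2]
    exact h1
  · -- v0n
    intro x q hx hq
    exact v0n_of h hC hθk hη0 hζ0' hη x q ((blx_none h.P x).1 hx) hq

end Pool.Agent.Work.MP_db9399_trn.helper95
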