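import Pool.Agent.Work.MP_db9399_trn_helper95.Env2
import Pool.Agent.Work.MP_db9399_ts_helper95.PRS
import Pool.Agent.Work.MP_db9399_lpl_helper62.LPL3

/-!
# MP_db9399, TSPLIT, block TRN (helper95), part 3: the labels

`Lbo` for the indicator functions of the sets of LPL gives `LabT` for `rlb X th pt sd`.
-/

set_option autoImplicit false

namespace Pool.Agent.Work.MP_db9399_trn.helper95

open Finset Classical
open Pool.Agent.Work.MP_db9399_all (nb)
open Pool.Agent.Work.MP_db9399_da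
open Pool.Agent.Work.MP_db9399_xf
open Pool.Agent.Work.MP_db9399_iv
open Pool.Agent.Work.MP_db9399_ts (Dat Env Kd Lbo Fam)
open Pool.Agent.Work.MP_db9399_clj.helper75 (OO blk nB eE)
open Pool.Agent.Work.MP_db9399_lpl (LabT)

universe u

section defs

variable {V : Type u} {N J : ℕ}

theorem same_rlb (X : XD V N J) (th : V → Fin 3) (pt : V → Fin 2) (sd : V → Bool) :
    SameX X (rlb X th pt sd) where
  V0 := rfl
  pc := rfl
  ty := rfl
  rg := rfl
  sd v hv := by
    change (if X.P.ty (X.P.pc v) = Ty.B then X.P.sd v else sd v) = _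
    rw [if_pos hv]
  sc := rfl
  cq := rfl
  Hv := rfl

theorem rlb_sd_B (X : XD V N J) (th : V → Fin 3) (pt : V → Fin 2) (sd : V → Bool) (v : V)
    (h : X.P.ty (X.P.pc v) = Ty.B) : (rlb X th pt sd).P.sd v = X.P.sd v := if_pos h

theorem rlb_sd_nB (X : XD V N J) (th : V → Fin 3) (pt : V → Fin 2) (sd : V → Bool) (v : V)
    (h : X.P.ty (X.P.pc v) ≠ Ty.B) : (rlb X th pt sd).P.sd v = sd v := if_neg h

/-- a Boolean as a number -/
def bf (i : Bool) : Fin 2 := if i then 1 else 0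

theorem rlb_pt (X : XD V N J) (th : V → Fin 3) (pt : V → Fin 2) (sd : V → Bool) (v : V)
    (i : Bool) : (rlb X th pt sd).P.pt v = i ↔ pt v = bf i := by
  change decide (pt v = 1) = i ↔ pt v = bf i
  have key : ∀ (x : Fin 2) (i : Bool), decide (x = 1) = i ↔ x = bf i := by decide
  exact key _ _

theorem bulk_rlb (G : SimpleGraph V) (X : XD V N J) (th : V → Fin 3) (pt : V → Fin 2)
    (sd : V → Bool) (v w : V) : (bulk G (rlb X th pt sd).P).Adj v w ↔ (bulk G X.P).Adj v w := by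
  unfold bulk
  simp only
  change G.Adj v w ∧ v ∉ X.P.V0 ∧ w ∉ X.P.V0 ∧ X.P.pc v = X.P.pc w ∧
    (X.P.ty (X.P.pc v) = Ty.B → (rlb X th pt sd).P.sd v ≠ (rlb X th pt sd).P.sd w) ↔ _
  constructor
  · rintro ⟨h1, h2, h3, h4, h5⟩
    refine ⟨h1, h2, h3, h4, fun h => ?_⟩
    have := h5 h
    rwa [rlb_sd_B X th pt sd v h, rlb_sd_B X th pt sd w (h4 ▸ h)] at this
  · rintro ⟨h1, h2, h3, h4, h5⟩
    refine ⟨h1, h2, h3, h4, fun h => ?_⟩
    rw [rlb_sd_B X th pt sd v h, rlb_sd_B X th pt sd w (h4 ▸ h)]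
    exact h5 h

theorem thin_rlb (G : SimpleGraph V) (X : XD V N J) (th : V → Fin 3) (pt : V → Fin 2)
    (sd : V → Bool) (v w : V) : (thin G (rlb X th pt sd).P).Adj v w ↔ (thin G X.P).Adj v w := by
  unfold thin
  simp only
  rw [bulk_rlb]

end defs

section fin

variable {V : Type u} [Fintype V] {N J : ℕ} {C g z θk θ' η a : ℝ} {M : ℕ} {S : Fin J → Scl}
  {G : SimpleGraph V} {d : ℕ} {X : XD V N J}

theorem pV_rlb (X : XD V N J) (th : V → Fin 3) (pt : V → Fin 2) (sd : V → Bool) (n : Fin N) :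
    pV (rlb X th pt sd).P n = pV X.P n := rfl

/-- the vertices of the pieces of the types N, B are light -/
theorem not_InO (h : HyT C g z θk θ' η a M S G d X) {v : V} (hv : v ∉ X.P.V0)
    (ht : X.P.ty (X.P.pc v) ≠ Ty.K) : ¬ InO X v := by
  rintro (h' | h')
  · exact hv h'
  · exact ht (h.K v h').2

/-- thin degree of the vertices of the types N, B -/
theorem td_eq (h : HyT C g z θk θ' η a M S G d X) {v : V} (hv : v ∉ X.P.V0)
    (ht : X.P.ty (X.P.pc v) ≠ Ty.K) (th : V → Fin 3) (pt : V → Fin 2) (sd : V → Bool) :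
    ((nb (thin G (rlb X th pt sd).P) v).card : ℝ) = (datX G d X).td v := by
  unfold Dat.td
  congr 2
  ext w
  rw [mem_nb, mem_nb, thin_rlb]
  unfold Dat.Th datX
  rw [SimpleGraph.sdiff_adj]
  constructor
  · rintro ⟨h1, h2⟩
    exact ⟨h1, fun h' => h2 h'.1⟩
  · rintro ⟨h1, h2⟩
    refine ⟨h1, fun hb => h2 ⟨hb, not_InO h hv ht, not_InO h hb.2.2.1 ?_⟩⟩
    rw [← hb.2.2.2.1]
    exact ht

/-- the type of a light vertex -/
theorem ty_iff (h : HyT C g z θk θ' η a M S G d X) (T : Kd → Prop) (v : V) :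
    (datX G d X).ty T v ↔ ¬ InO X v ∧ T (if X.P.ty (X.P.pc v) = Ty.K then Kd.K else
      if X.P.ty (X.P.pc v) = Ty.N then Kd.N else Kd.S) := by
  unfold Dat.ty
  constructor
  · rintro ⟨b, hb, hT⟩
    change blx X v = some b at hb
    rw [blx_some] at hb
    refine ⟨hb.1, ?_⟩
    change T (if X.P.ty b.down.1.1 = Ty.K then Kd.K else
      if X.P.ty b.down.1.1 = Ty.N then Kd.N else Kd.S) at hT
    rw [hb.2.1] at hT
    exact hT
  · rintro ⟨hv, hT⟩
    obtain ⟨b, hb⟩ := blx_ex h.P hv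
    refine ⟨b, hb, ?_⟩
    rw [blx_some] at hb
    change T (if X.P.ty b.down.1.1 = Ty.K then Kd.K else
      if X.P.ty b.down.1.1 = Ty.N then Kd.N else Kd.S)
    rw [hb.2.1]
    exact hT

/-- size of a piece -/
theorem pV_card (h : PcD C g z θk θ' η a M S G d X) (hC : 1 ≤ C) (n : Fin N) :
    ((pV X.P n).card : ℝ) ≤ C * d := by
  by_cases hne : (pV X.P n).Nonempty
  · obtain ⟨v, hv⟩ := hne
    rw [mem_pV] at hv
    refine le_trans ?_ (h.clc (cbx X n))
    refine Nat.cast_le.2 (card_le_card fun w hw => ?_)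
    rw [mem_pV] at hw
    rw [mem_filter]
    refine ⟨mem_univ _, ?_⟩
    rw [cq_cbx h hw.1, hw.2]
  · rw [not_nonempty_iff_eq_empty] at hne
    rw [hne]
    simp only [card_empty, Nat.cast_zero]
    positivity

theorem num3 (C : ℝ) (hC : 1 ≤ C) (d : ℕ) (hd : 1 ≤ d) (n : ℝ) (h0 : 0 ≤ n) (hn : n ≤ C * d)
    (hy : 10 ^ 7 * C ≤ (d : ℝ) ^ (1 / 100 : ℝ)) :
    Real.log d ^ 3 * (Real.sqrt n + n / d) ≤ (d : ℝ) ^ (9 / 10 : ℝ) := by
  have hdp : (0 : ℝ) < d := by exact_mod_cast hd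
  set y := (d : ℝ) ^ (1 / 100 : ℝ) with hyd
  have hy1 : 1 ≤ y := by nlinarith
  have e1 : (d : ℝ) = y ^ 100 := by
    rw [hyd, ← MP_db9399_ts.helper95.numy d hd 100]
    norm_num
  have e2 : (d : ℝ) ^ (9 / 10 : ℝ) = y ^ 90 := by
    rw [hyd, ← MP_db9399_ts.helper95.numy d hd 90]
    norm_num
  have s1 : Real.sqrt n ≤ C * y ^ 50 := by
    refine Real.sqrt_le_iff.2 ⟨by positivity, ?_⟩
    calc n ≤ C * d := hn
      _ = C * y ^ 100 := by rw [e1]
      _ ≤ C * y ^ 100 * C := by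
          have : 0 ≤ C * y ^ 100 := by positivity
          nlinarith
      _ = (C * y ^ 50) ^ 2 := by ring
  have s2 : n / d ≤ C * y ^ 50 := by
    have : n / d ≤ C := by rw [div_le_iff₀ hdp]; exact hn
    refine this.trans ?_
    have h1 : 1 ≤ y ^ 50 := one_le_pow₀ hy1
    nlinarith
  have hl := MP_db9399_ts.helper95.numlog d hd
  rw [← hyd] at hl
  have hl0 : 0 ≤ Real.log d ^ 3 := pow_nonneg (Real.log_natCast_nonneg d) 3
  have hs0 : 0 ≤ Real.sqrt n + n / d := by positivity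
  calc Real.log d ^ 3 * (Real.sqrt n + n / d) ≤
        (10 ^ 6 * y ^ 3) * (C * y ^ 50 + C * y ^ 50) :=
        mul_le_mul hl (add_le_add s1 s2) hs0 (by positivity)
    _ = (2 * 10 ^ 6 * C) * y ^ 53 := by ring
    _ ≤ y * y ^ 53 := by
        refine mul_le_mul_of_nonneg_right ?_ (by positivity)
        nlinarith
    _ = y ^ 54 := by ring
    _ ≤ y ^ 90 := pow_le_pow_right₀ hy1 (by norm_num)
    _ = (d : ℝ) ^ (9 / 10 : ℝ) := e2.symm

/-- the tests -/
noncomputable def al (I : Finset (Finset V)) (q : {A : Finset V // A ∈ I}) (v : V) : ℝ :=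
  if v ∈ q.1 then 1 else 0

theorem al_sum (I : Finset (Finset V)) (q : {A : Finset V // A ∈ I}) :
    ∑ v, al I q v ^ 2 = (q.1.card : ℝ) := by
  unfold al
  have : ∀ v, (if v ∈ q.1 then (1 : ℝ) else 0) ^ 2 = if v ∈ q.1 then 1 else 0 := by
    intro v; split_ifs <;> norm_num
  rw [sum_congr rfl fun v _ => this v]
  simp

theorem al_abs (I : Finset (Finset V)) (q : {A : Finset V // A ∈ I}) :
    ∑ v, |al I q v| = (q.1.card : ℝ) := by
  unfold al
  have : ∀ v, |(if v ∈ q.1 then (1 : ℝ) else 0)| = if v ∈ q.1 then 1 else 0 := by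
    intro v; split_ifs <;> norm_num
  rw [sum_congr rfl fun v _ => this v]
  simp

theorem al_fam (I : Finset (Finset V)) (hd : 1 ≤ d) (h1 : ∀ A ∈ I, A.card ≤ d ^ 3)
    (h2 : ∀ v, (I.filter (fun A => v ∈ A)).card ≤ d ^ 3) : Fam (al I) d 3 := by
  have e : (d : ℝ) ^ (3 : ℝ) = (d : ℝ) ^ 3 := by rw [← Real.rpow_natCast]; norm_num
  constructor
  · intro q
    rw [e]
    have : (univ.filter fun v => al I q v ≠ 0).card ≤ d ^ 3 := by
      refine le_trans (card_le_card fun v hv => ?_) (h1 q.1 q.2)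
      rw [mem_filter] at hv
      by_contra hcon
      exact hv.2 (if_neg hcon)
    exact_mod_cast this
  · intro v
    rw [e]
    have : (univ.filter fun q : {A : Finset V // A ∈ I} => al I q v ≠ 0).card ≤ d ^ 3 := by
      refine le_trans (card_le_card_of_injOn (fun q => q.1) ?_ ?_) (h2 v)
      · intro q hq
        rw [mem_coe, mem_filter] at hq
        rw [mem_coe, mem_filter]
        refine ⟨q.2, ?_⟩
        by_contra hcon
        exact hq.2 (if_neg hcon)
      · intro q _ q' _ hqq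
        exact Subtype.ext hqq
    exact_mod_cast this

/-- a linear test of an indicator function -/
theorem al_test (I : Finset (Finset V)) (q : {A : Finset V // A ∈ I}) (T : V → Prop)
    [DecidablePred T] (hT : ∀ v ∈ q.1, T v) (p : V → Prop) [DecidablePred p] (x : ℝ) :
    ∑ v with T v, al I q v * ((if p v then 1 else 0) - x) =
      ((q.1.filter p).card : ℝ) - q.1.card * x := by
  have h1 : ∑ v with T v, al I q v * ((if p v then 1 else 0) - x) =
      ∑ v ∈ q.1, ((if p v then 1 else 0) - x) := by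
    rw [← sum_subset (s₁ := q.1) (s₂ := univ.filter T)]
    · refine sum_congr rfl fun v hv => ?_
      unfold al
      rw [if_pos hv, one_mul]
    · intro v hv
      rw [mem_filter]
      exact ⟨mem_univ _, hT v hv⟩
    · intro v _ hv
      unfold al
      rw [if_neg hv, zero_mul]
  rw [h1, sum_sub_distrib, sum_const, nsmul_eq_mul]
  congr 1
  rw [card_filter]
  push_cast
  rfl

theorem opx_mkB (X : XD V N J) {n : Fin N} (hE : X.P.ty n ≠ Ty.E) (hn : X.P.ty n = Ty.B) :
    opx X (mkB X n false hE (Or.inl hn)) = mkB X n true hE (Or.inl hn) := by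
  refine BX_ext ?_
  rw [opx_B X _ hn]
  rfl

/-- the quarters of the pieces of type B -/
theorem qV_B (h : HyT C g z θk θ' η a M S G d X) {n : Fin N} (hE : X.P.ty n ≠ Ty.E)
    (hn : X.P.ty n = Ty.B) (th : V → Fin 3) (pt : V → Fin 2) (sd : V → Bool) (β i : Bool) :
    MP_db9399_xf.qV (rlb X th pt sd) n β i =
      (blk (blx X) (mkB X n β hE (Or.inl hn))).filter fun v => pt v = bf i := by
  rw [blk_B h _ hn]
  unfold MP_db9399_xf.qV
  ext v
  rw [mem_filter, mem_filter, mem_sV, mem_sV, rlb_pt]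
  change ((v ∉ X.P.V0 ∧ X.P.pc v = n ∧ (rlb X th pt sd).P.sd v = β) ∧ pt v = bf i) ↔
    ((v ∉ X.P.V0 ∧ X.P.pc v = n ∧ X.P.sd v = β) ∧ pt v = bf i)
  constructor
  · rintro ⟨⟨h2, h3, h4⟩, h5⟩
    rw [rlb_sd_B X th pt sd v (by rw [h3]; exact hn)] at h4
    exact ⟨⟨h2, h3, h4⟩, h5⟩
  · rintro ⟨⟨h2, h3, h4⟩, h5⟩
    refine ⟨⟨h2, h3, ?_⟩, h5⟩
    rw [rlb_sd_B X th pt sd v (by rw [h3]; exact hn)]
    exact h4

/-- the quarters of the pieces of type N -/
theorem qV_N {n : Fin N} (hn : X.P.ty n = Ty.N) (th : V → Fin 3) (pt : V → Fin 2)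
    (sd : V → Bool) (β i : Bool) :
    MP_db9399_xf.qV (rlb X th pt sd) n β i =
      (pV X.P n).filter fun v => pt v = bf i ∧ sd v = β := by
  unfold MP_db9399_xf.qV
  ext v
  rw [mem_filter, mem_filter, mem_sV, mem_pV, rlb_pt]
  change ((v ∉ X.P.V0 ∧ X.P.pc v = n ∧ (rlb X th pt sd).P.sd v = β) ∧ pt v = bf i) ↔ _
  constructor
  · rintro ⟨⟨h2, h3, h4⟩, h5⟩
    rw [rlb_sd_nB X th pt sd v (by rw [h3, hn]; decide)] at h4
    exact ⟨⟨h2, h3⟩, h5, h4⟩
  · rintro ⟨⟨h2, h3⟩, h5, h4⟩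
    rw [rlb_sd_nB X th pt sd v (by rw [h3, hn]; decide)]
    exact ⟨⟨h2, h3, h4⟩, h5⟩

/-- thin degrees of the vertices of the types N, B -/
theorem td_le (h : HyT C g z θk θ' η a M S G d X) {v : V} (hv : v ∉ X.P.V0)
    (ht : X.P.ty (X.P.pc v) = Ty.N ∨ X.P.ty (X.P.pc v) = Ty.B) :
    (datX G d X).td v ≤ (S (X.sc (X.P.pc v))).ζ * d := by
  have hK : X.P.ty (X.P.pc v) ≠ Ty.K := by
    rcases ht with ht | ht <;> rw [ht] <;> decide
  have h1 := h.P.thd v (ht.imp (fun e => ⟨hv, e⟩) fun e => ⟨hv, e⟩)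
  have h2 := td_eq h hv hK X.P.th (fun _ => 0) X.P.sd
  rw [← h2]
  refine le_trans (le_of_eq ?_) h1
  congr 2
  ext w
  rw [mem_nb, mem_nb, thin_rlb]

theorem labT_of (h : HyT C g z θk θ' η a M S G d X) (hC : 1 ≤ C) (hd : 1 ≤ d)
    (hy : 10 ^ 7 * C ≤ (d : ℝ) ^ (1 / 100 : ℝ)) {Cm Cm' : ℝ} (hCm : Cm ≤ Cm')
    (hSζ : ∀ s, 0 < (S s).ζ)
    (I : Finset (Finset V))
    (hI : ∀ A ∈ I, ∃ n, A ⊆ pV X.P n ∧ (X.P.ty n = Ty.K → Disjoint A X.Hv))
    {th : V → Fin 3} {pt : V → Fin 2} {sd : V → Bool}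
    (L : Lbo (datX G d X) Cm (al I) th pt sd) :
    LabT Cm' I S G d (rlb X th pt sd) := by
  have hd0 : (0 : ℝ) < d := by exact_mod_cast hd
  -- the error of a test
  have herr : ∀ q : {A : Finset V // A ∈ I}, Real.log d ^ 3 *
      (Real.sqrt (∑ v, al I q v ^ 2) + (∑ v, |al I q v|) / d) ≤ (d : ℝ) ^ (9 / 10 : ℝ) := by
    intro q
    rw [al_sum, al_abs]
    refine num3 C hC d hd _ (by positivity) ?_ hy
    obtain ⟨n, hn, -⟩ := hI q.1 q.2
    exact le_trans (Nat.cast_le.2 (card_le_card hn)) (pV_card h.P hC n)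
  have hkS : ∀ v, X.P.ty (X.P.pc v) = Ty.B → (if X.P.ty (X.P.pc v) = Ty.K then Kd.K else
      if X.P.ty (X.P.pc v) = Ty.N then Kd.N else Kd.S) = Kd.S := by
    intro v hv; rw [hv]; simp
  have hkN : ∀ v, X.P.ty (X.P.pc v) = Ty.N → (if X.P.ty (X.P.pc v) = Ty.K then Kd.K else
      if X.P.ty (X.P.pc v) = Ty.N then Kd.N else Kd.S) = Kd.N := by
    intro v hv; rw [hv]; simp
  have hkK : ∀ v, X.P.ty (X.P.pc v) = Ty.K → (if X.P.ty (X.P.pc v) = Ty.K then Kd.K else
      if X.P.ty (X.P.pc v) = Ty.N then Kd.N else Kd.S) = Kd.K := by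
    intro v hv; rw [hv]; simp
  -- blocks
  have hbN : ∀ n, X.P.ty n = Ty.N → ∃ b : BX X, b.down.1.1 = n ∧ blk (blx X) b = pV X.P n := by
    intro n hn
    refine ⟨mkB X n false (by rw [hn]; decide) (Or.inr rfl), rfl, ?_⟩
    rw [blk_nB X _ (by change X.P.ty n ≠ Ty.B; rw [hn]; decide)]
    change (pV X.P n).filter _ = _
    rw [filter_eq_self]
    intro v hv hv'
    have := (h.K v hv').2
    rw [(mem_pV.1 hv).2, hn] at this
    exact absurd this (by decide)
  refine ⟨?_, ?_, ?_, ?_, ?_, ?_, ?_⟩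
  · -- tN
    intro A hA n hn hAn β i
    have h1 := L.tN ⟨A, hA⟩ (bf i) β
    have h2 := al_test I ⟨A, hA⟩ (fun v => (datX G d X).ty (fun κ => κ = Kd.N) v)
      (fun v hv => by
        have hv' : v ∉ X.P.V0 ∧ X.P.pc v = n := mem_pV.1 (hAn hv)
        have ht : X.P.ty (X.P.pc v) = Ty.N := by rw [hv'.2]; exact hn
        refine (ty_iff h _ v).2 ⟨not_InO h hv'.1 (by rw [ht]; decide), hkN v ht⟩)
      (fun v => pt v = bf i ∧ sd v = β) (1 / 4)
    rw [h2] at h1
    have h3 : (A.filter fun v => (rlb X th pt sd).P.sd v = β ∧ (rlb X th pt sd).P.pt v = i) =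
        A.filter fun v => pt v = bf i ∧ sd v = β := by
      refine filter_congr fun v hv => ?_
      have hv' : v ∉ X.P.V0 ∧ X.P.pc v = n := mem_pV.1 (hAn hv)
      have ht : X.P.ty (X.P.pc v) = Ty.N := by rw [hv'.2]; exact hn
      rw [rlb_pt, rlb_sd_nB X th pt sd v (by rw [ht]; decide)]
      exact and_comm
    rw [h3]
    refine le_trans (le_of_eq ?_) (h1.trans (herr ⟨A, hA⟩))
    congr 1
    ring
  · -- tB
    intro A hA n hn hAn i
    have h1 := L.tS ⟨A, hA⟩ (bf i)
    have h2 := al_test I ⟨A, hA⟩ (fun v => (datX G d X).ty (fun κ => κ = Kd.S) v)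
      (fun v hv => by
        have hv' : v ∉ X.P.V0 ∧ X.P.pc v = n := mem_pV.1 (hAn hv)
        have ht : X.P.ty (X.P.pc v) = Ty.B := by rw [hv'.2]; exact hn
        refine (ty_iff h _ v).2 ⟨not_InO h hv'.1 (by rw [ht]; decide), hkS v ht⟩)
      (fun v => pt v = bf i) (1 / 2)
    rw [h2] at h1
    have h3 : (A.filter fun v => (rlb X th pt sd).P.pt v = i) =
        A.filter fun v => pt v = bf i := by
      refine filter_congr fun v hv => ?_
      rw [rlb_pt]
    rw [h3]
    refine le_trans (le_of_eq ?_) (h1.trans (herr ⟨A, hA⟩))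
    congr 1
    ring
  · -- tK
    intro A hA n hn hAn i β
    have h1 := L.tK ⟨A, hA⟩ i β
    have hdis : ∀ v ∈ A, v ∉ X.Hv := by
      intro v hv
      obtain ⟨n', hn', hn''⟩ := hI A hA
      have e1 : X.P.pc v = n := (mem_pV.1 (hAn hv)).2
      have e2 := (mem_pV.1 (hn' hv)).2
      have e3 : X.P.ty n' = Ty.K := by rw [← e2, e1]; exact hn
      exact Finset.disjoint_left.1 (hn'' e3) hv
    have h2 := al_test I ⟨A, hA⟩ (fun v => (datX G d X).kK v)
      (fun v hv => by
        have hv' : v ∉ X.P.V0 ∧ X.P.pc v = n := mem_pV.1 (hAn hv)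
        have ht : X.P.ty (X.P.pc v) = Ty.K := by rw [hv'.2]; exact hn
        refine (ty_iff h _ v).2 ⟨?_, hkK v ht⟩
        rintro (h' | h')
        · exact hv'.1 h'
        · exact hdis v hv h')
      (fun v => th v = i ∧ sd v = β) (1 / 6)
    rw [h2] at h1
    have h3 : (A.filter fun v => (rlb X th pt sd).P.th v = i ∧ (rlb X th pt sd).P.sd v = β) =
        A.filter fun v => th v = i ∧ sd v = β := by
      refine filter_congr fun v hv => ?_
      have hv' : v ∉ X.P.V0 ∧ X.P.pc v = n := mem_pV.1 (hAn hv)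
      have ht : X.P.ty (X.P.pc v) = Ty.K := by rw [hv'.2]; exact hn
      rw [rlb_sd_nB X th pt sd v (by rw [ht]; decide)]
      exact Iff.rfl
    rw [h3]
    refine le_trans (le_of_eq ?_) (h1.trans (herr ⟨A, hA⟩))
    congr 1
    ring
  · -- cN
    intro n hn β i
    obtain ⟨b, hb1, hb2⟩ := hbN n hn
    have h1 := L.n4 b (bf i) β ((kd_N G d X b).2 (by rw [hb1]; exact hn))
    change 4 * ((blk (blx X) b).filter fun v => pt v = bf i ∧ sd v = β).card =
      (blk (blx X) b).card at h1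
    rw [hb2] at h1
    rw [pV_rlb, ← h1, qV_N (X := X) hn]
  · -- cB
    intro n hn i
    have hn' : X.P.ty n = Ty.B := hn
    have hE : X.P.ty n ≠ Ty.E := by rw [hn']; decide
    have h1 := L.s1 (mkB X n false hE (Or.inl hn')) (bf i) ((kd_S G d X _).2 hn')
    change ((blk (blx X) (opx X (mkB X n false hE (Or.inl hn')))).filter fun v =>
      pt v = bf i).card = ((blk (blx X) (mkB X n false hE (Or.inl hn'))).filter fun v =>
      pt v = bf i).card at h1
    rw [opx_mkB X hE hn'] at h1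
    rw [qV_B h hE hn', qV_B h hE hn']
    exact h1.symm
  · -- cS
    intro n hn i
    have hn' : X.P.ty n = Ty.B := hn
    have hE : X.P.ty n ≠ Ty.E := by rw [hn']; decide
    have h1 := L.s2 (mkB X n false hE (Or.inl hn')) (bf i) ((kd_S G d X _).2 hn')
    have h2 : bf i + 1 = bf (!i) := by cases i <;> rfl
    rw [h2] at h1
    rw [qV_B h hE hn', qV_B h hE hn']
    exact h1
  · -- thq
    intro n hn i
    have hzd : 0 ≤ (S (X.sc n)).ζ * d := mul_nonneg (hSζ _).le hd0.le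
    have hsc : (rlb X th pt sd).sc = X.sc := rfl
    rw [hsc]
    have hup : Cm * ((S (X.sc n)).ζ * d) ≤ Cm' * ((S (X.sc n)).ζ * d) :=
      mul_le_mul_of_nonneg_right hCm hzd
    refine le_trans ?_ hup
    rcases hn with hn | hn
    · have hn' : X.P.ty n = Ty.N := hn
      obtain ⟨b, hb1, hb2⟩ := hbN n hn'
      have h1 := L.dN b (bf i) ((S (X.sc n)).ζ * d)
        ((kd_N G d X b).2 (by rw [hb1]; exact hn')) (fun v hv => by
          change blx X v = some b at hv
          have hv' : v ∈ blk (blx X) b := by unfold blk; rw [mem_filter]; exact ⟨mem_univ _, hv⟩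
          rw [hb2, mem_pV] at hv'
          have h3 := td_le h hv'.1 (Or.inl (by rw [hv'.2]; exact hn'))
          rw [hv'.2] at h3
          exact h3)
      change |∑ v ∈ (blk (blx X) b).filter (fun v => pt v = bf i ∧ sd v = false),
        (datX G d X).td v - ∑ v ∈ (blk (blx X) b).filter (fun v => pt v = bf i ∧ sd v = true),
        (datX G d X).td v| ≤ _ at h1
      rw [hb2] at h1
      rw [qV_N (X := X) hn', qV_N (X := X) hn']
      have h4 : ∀ v ∈ pV X.P n, ((nb (thin G (rlb X th pt sd).P) v).card : ℝ) =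
          (datX G d X).td v := fun v hv => by
        rw [mem_pV] at hv
        exact td_eq h hv.1 (by rw [hv.2, hn']; decide) th pt sd
      rw [sum_congr rfl fun v hv => h4 v (mem_filter.1 hv).1,
        sum_congr rfl fun v hv => h4 v (mem_filter.1 hv).1]
      exact h1
    · have hn' : X.P.ty n = Ty.B := hn
      have hE : X.P.ty n ≠ Ty.E := by rw [hn']; decide
      have h1 := L.dS (mkB X n false hE (Or.inl hn')) (bf i) ((S (X.sc n)).ζ * d)
        ((kd_S G d X _).2 hn') (fun v hv => by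
          have hv' : v ∉ X.P.V0 ∧ X.P.pc v = n := by
            change blx X v = some _ ∨ blx X v = some (opx X _) at hv
            rw [opx_mkB X hE hn', blx_some, blx_some] at hv
            rcases hv with hv | hv
            · exact ⟨fun h' => hv.1 (Or.inl h'), hv.2.1.symm⟩
            · exact ⟨fun h' => hv.1 (Or.inl h'), hv.2.1.symm⟩
          have h3 := td_le h hv'.1 (Or.inr (by rw [hv'.2]; exact hn'))
          rw [hv'.2] at h3
          exact h3)
      change |∑ v ∈ (blk (blx X) (mkB X n false hE (Or.inl hn'))).filter (fun v => pt v = bf i),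
        (datX G d X).td v - ∑ v ∈ (blk (blx X) (opx X (mkB X n false hE
          (Or.inl hn')))).filter (fun v => pt v = bf i), (datX G d X).td v| ≤ _ at h1
      rw [opx_mkB X hE hn'] at h1
      rw [qV_B h hE hn', qV_B h hE hn']
      have h4 : ∀ β, ∀ v ∈ blk (blx X) (mkB X n β hE (Or.inl hn')),
          ((nb (thin G (rlb X th pt sd).P) v).card : ℝ) = (datX G d X).td v := fun β v hv => by
        rw [blk_B h _ hn', mem_sV] at hv
        change v ∉ X.P.V0 ∧ X.P.pc v = n ∧ _ at hv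
        exact td_eq h hv.1 (by rw [hv.2.1, hn']; decide) th pt sd
      rw [sum_congr rfl fun v hv => h4 false v (mem_filter.1 hv).1,
        sum_congr rfl fun v hv => h4 true v (mem_filter.1 hv).1]
      exact h1

end fin

end Pool.Agent.Work.MP_db9399_trn.helper95
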